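import Mathlib

namespace Pool.Agent.Results.MP_7b3742_al.Counter

/-- `g` is the automorphism of the tree of words induced by `x ↦ b + x A`. -/
def IsAffine (d : ℕ) (g : Equiv.Perm (List (ZMod d))) : Prop :=
  ∃ (A : ℕ → ℕ → ZMod d) (b : ℕ → ZMod d), (∀ i j, j < i → A i j = 0) ∧ (∀ i, IsUnit (A i i)) ∧
    ∀ (n : ℕ) (x : ℕ → ZMod d), g (List.ofFn fun i : Fin n => x i) =
      List.ofFn fun j : Fin n => b j + ∑ i ∈ Finset.range (j + 1), x i * A i j

/-- The states `g|_v` of `g`. -/
def states {X : Type} (g : Equiv.Perm (List X)) : Set (Equiv.Perm (List X)) :=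
  {h | ∃ v : List X, ∀ w : List X, g (v ++ w) = g v ++ h w}

/-- The restricted wreath product, inside the unrestricted one. -/
def restrictedWr (D Q : Type) [Group D] [Group Q] : Subgroup (RegularWreathProduct D Q) where
  carrier := {w | (Function.mulSupport w.left).Finite}
  one_mem' := by simp
  mul_mem' := by
    intro a b ha hb
    refine Set.Finite.subset (ha.union (hb.image (a.right * ·))) ?_
    intro q hq
    by_cases h : a.left q = 1
    · right
      refine ⟨a.right⁻¹ * q, ?_, by simp⟩
      simpa [h] using hq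
    · left; exact h
  inv_mem' := by
    intro a ha
    refine Set.Finite.subset (ha.image (a.right⁻¹ * ·)) ?_
    intro q hq
    refine ⟨a.right * q, ?_, by simp⟩
    simpa using hq

/-- The group `ℤ_d^k wr ℤ^l`. -/
abbrev Wr (d k l : ℕ) : Type :=
  restrictedWr (Multiplicative (Fin k → ZMod d)) (Multiplicative (Fin l → ℤ))

abbrev Z2 := ZMod 2

def F : Bool → Z2 → List Z2 → List Z2
  | _, _, [] => []
  | true, c, x :: w => (x + c) :: F false x w
  | false, c, x :: w => x :: F true c w

def Fi : Bool → Z2 → List Z2 → List Z2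
  | _, _, [] => []
  | true, c, x :: w => (x - c) :: Fi false (x - c) w
  | false, c, x :: w => x :: Fi true c w

lemma Fi_F (w : List Z2) : ∀ p c, Fi p c (F p c w) = w := by
  induction w with
  | nil => intro p c; cases p <;> rfl
  | cons x w ih => intro p c; cases p <;> simp [F, Fi, ih]

lemma F_Fi (w : List Z2) : ∀ p c, F p c (Fi p c w) = w := by
  induction w with
  | nil => intro p c; cases p <;> rfl
  | cons x w ih => intro p c; cases p <;> simp [F, Fi, ih]

def S (p : Bool) (c : Z2) : Equiv.Perm (List Z2) := ⟨F p c, Fi p c, fun w => Fi_F w p c,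
  fun w => F_Fi w p c⟩

lemma S_apply (p c w) : S p c w = F p c w := rfl

def T : (ℕ → Z2) → List Z2 → List Z2
  | _, [] => []
  | u, x :: w => (x + u 0) :: T (fun j => u (j + 1)) w

lemma T_T (w : List Z2) : ∀ u u', T u (T u' w) = T (u + u') w := by
  induction w with
  | nil => intro u u'; rfl
  | cons x w ih =>
    intro u u'
    simp only [T, ih, Pi.add_apply]
    congr 1
    ring

lemma T_zero (w : List Z2) : T 0 w = w := by
  induction w with
  | nil => rfl
  | cons x w ih => simp only [T, Pi.zero_apply, add_zero]; congr 1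

lemma add_self (u : ℕ → Z2) : u + u = 0 := by
  funext j; exact CharTwo.add_self_eq_zero _

def TP (u : ℕ → Z2) : Equiv.Perm (List Z2) :=
  ⟨T u, T u, fun w => by rw [T_T, add_self, T_zero], fun w => by rw [T_T, add_self, T_zero]⟩

lemma TP_mul (u u' : ℕ → Z2) : TP u * TP u' = TP (u + u') := by
  ext1 w; exact T_T w u u'

lemma TP_zero : TP 0 = 1 := by ext1 w; exact T_zero w

lemma T_ofFn (n : ℕ) : ∀ u x : ℕ → Z2, T u (List.ofFn fun i : Fin n => x i) =
    List.ofFn fun i : Fin n => x i + u i := by
  induction n with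
  | zero => intro u x; rfl
  | succ n ih =>
    intro u x
    rw [List.ofFn_succ, List.ofFn_succ, T]
    congr 1
    exact ih (fun j => u (j + 1)) (fun j => x (j + 1))

lemma TP_inj {u u' : ℕ → Z2} (h : TP u = TP u') : u = u' := by
  funext j
  have h1 : T u (List.ofFn fun i : Fin (j + 1) => (0 : ℕ → Z2) i) =
      T u' (List.ofFn fun i : Fin (j + 1) => (0 : ℕ → Z2) i) :=
    congrArg (fun g : Equiv.Perm (List Z2) => g _) h
  rw [T_ofFn, T_ofFn] at h1
  have := congrFun (List.ofFn_injective h1) (Fin.last j)
  simpa using this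

def L (p : Bool) (c : Z2) (u : ℕ → Z2) (j : ℕ) : Z2 :=
  u j + if (j % 2 = 0 ↔ p = true) then (if j < 2 then c else u (j - 2)) else 0

lemma L_true (c : Z2) (u : ℕ → Z2) :
    (fun j => L true c u (j + 1)) = L false (u 0) (fun j => u (j + 1)) := by
  funext j
  unfold L
  rcases Nat.mod_two_eq_zero_or_one j with h | h
  · have : (j + 1) % 2 = 1 := by omega
    simp [h, this]
  · have h2 : (j + 1) % 2 = 0 := by omega
    by_cases h3 : j < 2
    · obtain rfl : j = 1 := by omega
      simp
    · have h4 : ¬ j + 1 < 2 := by omega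
      have h5 : j + 1 - 2 = j - 2 + 1 := by omega
      simp [h, h2, h3, h4, h5]

lemma L_false (c : Z2) (u : ℕ → Z2) :
    (fun j => L false c u (j + 1)) = L true c (fun j => u (j + 1)) := by
  funext j
  unfold L
  rcases Nat.mod_two_eq_zero_or_one j with h | h
  · have h2 : (j + 1) % 2 = 1 := by omega
    by_cases h3 : j < 2
    · obtain rfl : j = 0 := by omega
      simp
    · have h4 : ¬ j + 1 < 2 := by omega
      have h5 : j + 1 - 2 = j - 2 + 1 := by omega
      simp [h, h2, h3, h4, h5]
  · have : (j + 1) % 2 = 0 := by omega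
    simp [h, this]

lemma F_ofFn (n : ℕ) : ∀ p c (x : ℕ → Z2), F p c (List.ofFn fun i : Fin n => x i) =
    List.ofFn fun i : Fin n => L p c x i := by
  induction n with
  | zero => intro p c x; cases p <;> rfl
  | succ n ih =>
    intro p c x
    rw [List.ofFn_succ, List.ofFn_succ]
    cases p
    · rw [F]
      congr 1
      · simp [L]
      · have := ih true c (fun j => x (j + 1))
        rw [← L_false] at this
        exact this
    · rw [F]
      congr 1
      have := ih false (x 0) (fun j => x (j + 1))
      rw [← L_true c] at this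
      exact this

lemma F_T (w : List Z2) : ∀ p c c' u, F p (c' + c) (T u w) = T (L p c u) (F p c' w) := by
  induction w with
  | nil => intro p c c' u; cases p <;> rfl
  | cons x w ih =>
    intro p c c' u
    cases p
    · simp only [T, F, ih, L_false]
      congr 1
      simp [L]
    · simp only [T, F, ih, L_true]
      congr 1
      simp [L]; ring

lemma S_TP (p : Bool) (u : ℕ → Z2) : S p 0 * TP u = TP (L p 0 u) * S p 0 := by
  ext1 w
  have := F_T w p 0 0 u
  rw [add_zero] at this
  exact this

lemma S_one (p : Bool) : S p 1 = TP (L p 1 0) * S p 0 := by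
  ext1 w
  have := F_T w p 1 0 0
  rw [zero_add, T_zero] at this
  exact this

lemma S_pow_TP (p : Bool) (u : ℕ → Z2) (k : ℕ) :
    S p 0 ^ k * TP u = TP ((L p 0)^[k] u) * S p 0 ^ k := by
  induction k with
  | zero => simp
  | succ k ih =>
    rw [pow_succ', mul_assoc, ih, ← mul_assoc, S_TP, Function.iterate_succ_apply', mul_assoc]

lemma F_comm (w : List Z2) : ∀ c c', F true c (F false c' w) = F false c' (F true c w) := by
  induction w with
  | nil => intro c c'; rfl
  | cons x w ih => intro c c'; simp only [F, ih]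

lemma top (p : Bool) (r : ℕ) (hr : r % 2 = 0 ↔ p = true) (u : ℕ → Z2) (h1 : u r = 1)
    (h0 : ∀ j, r < j → u j = 0) (k : ℕ) :
    (L p 0)^[k] u (r + 2 * k) = 1 ∧ ∀ j, r + 2 * k < j → (L p 0)^[k] u j = 0 := by
  induction k with
  | zero => exact ⟨h1, h0⟩
  | succ k ih =>
    rw [Function.iterate_succ_apply']
    constructor
    · have e1 : (r + 2 * (k + 1)) % 2 = r % 2 := by omega
      have e2 : ¬ r + 2 * (k + 1) < 2 := by omega
      have e3 : r + 2 * (k + 1) - 2 = r + 2 * k := by omega
      rw [L, ih.2 _ (by omega), e1, if_pos hr, if_neg e2, e3, ih.1, zero_add]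
    · intro j hj
      rw [L, ih.2 _ (by omega), if_neg (show ¬ j < 2 by omega), ih.2 _ (by omega)]
      simp

lemma iter_inj (p : Bool) (r : ℕ) (hr : r % 2 = 0 ↔ p = true) (u : ℕ → Z2) (h1 : u r = 1)
    (h0 : ∀ j, r < j → u j = 0) : Function.Injective fun k => (L p 0)^[k] u := by
  have key : ∀ k m, k < m → (L p 0)^[k] u ≠ (L p 0)^[m] u := by
    intro k m hkm h
    have a := (top p r hr u h1 h0 m).1
    have b := (top p r hr u h1 h0 k).2 (r + 2 * m) (by omega)
    rw [← h, b] at a
    exact zero_ne_one a
  intro k m h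
  rcases lt_trichotomy k m with h2 | h2 | h2
  · exact absurd h (key _ _ h2)
  · exact h2
  · exact absurd h.symm (key _ _ h2)

lemma F_append (v : List Z2) : ∀ p c, ∃ p' c', ∀ w, F p c (v ++ w) = F p c v ++ F p' c' w := by
  induction v with
  | nil => intro p c; exact ⟨p, c, fun w => by cases p <;> rfl⟩
  | cons x v ih =>
    intro p c
    cases p
    · obtain ⟨p', c', h⟩ := ih true c
      exact ⟨p', c', fun w => by simp [F, h]⟩
    · obtain ⟨p', c', h⟩ := ih false x
      exact ⟨p', c', fun w => by simp [F, h]⟩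

lemma wr_key {D Q : Type} [CommGroup D] [CommGroup Q] [IsMulTorsionFree Q]
    (hD : ∀ d : D, d ^ 2 = 1) (x y : restrictedWr D Q) (hxy : x * y = y * x) (hy : y ^ 2 = 1)
    (hy1 : y ≠ 1) : x ^ 2 = 1 := by
  have hr : y.1.right = 1 := by
    have : y.1.right ^ 2 = 1 := by
      have := congrArg (fun z : restrictedWr D Q => z.1.right) hy
      simpa [pow_two] using this
    exact (pow_eq_one_iff_left (by norm_num)).mp this
  have hf : ∀ q, y.1.left (x.1.right⁻¹ * q) = y.1.left q := by
    intro q
    have := congrArg (fun z : restrictedWr D Q => z.1.left q) hxy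
    simp only [Subgroup.coe_mul, RegularWreathProduct.mul_left, Pi.mul_apply, hr, inv_one,
      one_mul] at this
    rw [mul_comm (y.1.left q)] at this
    exact mul_left_cancel this
  have hz : x.1.right = 1 := by
    by_contra hz
    obtain ⟨q, hq⟩ : ∃ q, y.1.left q ≠ 1 := by
      by_contra h
      push Not at h
      exact hy1 (Subtype.ext (RegularWreathProduct.ext (funext h) hr))
    have hn : ∀ n : ℕ, y.1.left (x.1.right⁻¹ ^ n * q) ≠ 1 := by
      intro n
      induction n with
      | zero => simpa using hq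
      | succ n ih => rw [pow_succ', mul_assoc, hf]; exact ih
    refine Set.infinite_of_injective_forall_mem (f := fun n : ℕ => x.1.right⁻¹ ^ n * q) ?_ hn y.2
    intro a b hab
    have h1 : x.1.right⁻¹ ^ a = x.1.right⁻¹ ^ b := mul_right_cancel hab
    have h2 : ¬ IsOfFinOrder x.1.right⁻¹ := by
      rw [isOfFinOrder_inv_iff]
      exact not_isOfFinOrder_of_isMulTorsionFree hz
    exact (injective_pow_iff_not_isOfFinOrder.mpr h2) h1
  apply Subtype.ext
  apply RegularWreathProduct.ext
  · funext q
    have := hD (x.1.left q)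
    simpa [pow_two, hz] using this
  · simp [pow_two, hz]

theorem result : ∃ (d : ℕ) (g : Equiv.Perm (List (ZMod d))), 2 ≤ d ∧ IsAffine d g ∧
    (states g).Finite ∧ Infinite (Subgroup.closure (states g)) ∧
    ∀ k l : ℕ, 1 ≤ k → 1 ≤ l → ∀ N : Subgroup (Subgroup.closure (states g)),
      N.FiniteIndex → IsEmpty (N ≃* Wr d k l) := by
  have ha : S true 0 ∈ Subgroup.closure (states (S true 0)) :=
    Subgroup.subset_closure ⟨[], fun w => rfl⟩
  have hb : ∀ c, S false c ∈ Subgroup.closure (states (S true 0)) := fun c =>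
    Subgroup.subset_closure ⟨[c], fun w => rfl⟩
  have hpow : ∀ k, S true 0 ^ k = 1 → k = 0 := by
    intro k hk
    have h := S_pow_TP true (Pi.single 0 1) k
    rw [hk, one_mul, mul_one] at h
    exact (iter_inj true 0 (by simp) (Pi.single 0 1) (by simp)
      (fun j hj => Pi.single_eq_of_ne (by omega) _) (a₁ := 0) (a₂ := k) (TP_inj h)).symm
  let s : ℕ → ℕ → Z2 := fun k => (L false 0)^[k] (L false 1 0)
  have hsinj : Function.Injective s := by
    refine iter_inj false 1 (by simp) _ (by simp [L]) ?_
    intro j hj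
    simp [L, show ¬ j < 2 by omega]
  have hs : ∀ k, TP (s k) = S false 0 ^ k * (S false 1 * (S false 0)⁻¹) * (S false 0 ^ k)⁻¹ := by
    intro k
    rw [S_one, mul_inv_cancel_right, S_pow_TP, mul_inv_cancel_right]
  have hc : ∀ c, Commute (S true 0) (S false c) := fun c => by
    ext1 w; exact F_comm w 0 c
  have hsc : ∀ k, Commute (S true 0) (TP (s k)) := by
    intro k
    rw [hs]
    exact (((hc 0).pow_right k).mul_right ((hc 1).mul_right (hc 0).inv_right)).mul_right
      ((hc 0).pow_right k).inv_right
  have hsm : ∀ k, TP (s k) ∈ Subgroup.closure (states (S true 0)) := by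
    intro k
    rw [hs]
    exact mul_mem (mul_mem (pow_mem (hb 0) k) (mul_mem (hb 1) (inv_mem (hb 0))))
      (inv_mem (pow_mem (hb 0) k))
  refine ⟨2, S true 0, le_rfl, ?_, ?_, ?_, ?_⟩
  · refine ⟨fun i j => if i = j then 1 else if j % 2 = 0 ∧ i + 2 = j then 1 else 0, 0, ?_, ?_, ?_⟩
    · intro i j hij
      simp only
      rw [if_neg (by omega), if_neg (by omega)]
    · intro i; simp
    · intro n x
      rw [S_apply, F_ofFn]
      congr 1
      funext j
      rw [Finset.sum_range_succ]
      simp only [L, Pi.zero_apply, zero_add, if_true, mul_one, iff_true]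
      rw [add_comm]
      congr 1
      by_cases h1 : (j : ℕ) % 2 = 0
      · by_cases h2 : (j : ℕ) < 2
        · obtain h3 : (j : ℕ) = 0 := by omega
          simp [h3]
        · rw [if_pos h1, if_neg h2, Finset.sum_eq_single ((j : ℕ) - 2)]
          · rw [if_neg (by omega), if_pos ⟨h1, by omega⟩, mul_one]
          · intro i hi hi2
            rw [Finset.mem_range] at hi
            rw [if_neg (by omega), if_neg (by omega), mul_zero]
          · intro h; exfalso; apply h; rw [Finset.mem_range]; omega
      · rw [if_neg h1]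
        symm
        apply Finset.sum_eq_zero
        intro i hi
        rw [Finset.mem_range] at hi
        rw [if_neg (by omega), if_neg (by omega), mul_zero]
  · refine Set.Finite.subset (Set.finite_range fun pc : Bool × Z2 => S pc.1 pc.2) ?_
    rintro h ⟨v, hv⟩
    obtain ⟨p', c', h'⟩ := F_append v true 0
    refine ⟨(p', c'), ?_⟩
    ext1 w
    have := hv w
    rw [S_apply, S_apply, h'] at this
    exact List.append_cancel_left this
  · refine Infinite.of_injective (fun k => (⟨TP (s k), hsm k⟩ : Subgroup.closure _)) ?_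
    intro a b hab
    exact hsinj (TP_inj (congrArg Subtype.val hab))
  · intro k l _ _ N hN
    refine ⟨fun e => ?_⟩
    obtain ⟨m, hm0, -, hm⟩ := N.exists_pow_mem_of_index_ne_zero hN.index_ne_zero ⟨_, ha⟩
    obtain ⟨i, j, hij, hq⟩ := Finite.exists_ne_map_eq_of_infinite
      (fun k => (QuotientGroup.mk (⟨TP (s k), hsm k⟩ : Subgroup.closure _) : _ ⧸ N))
    rw [QuotientGroup.eq] at hq
    have hinv : ∀ u, (TP u)⁻¹ = TP u := fun u => by
      rw [inv_eq_iff_mul_eq_one, TP_mul, add_self, TP_zero]
    have key := wr_key (fun d => by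
      apply Multiplicative.toAdd.injective
      funext t
      simp only [pow_two, toAdd_mul, Pi.add_apply, toAdd_one, Pi.zero_apply]
      exact CharTwo.add_self_eq_zero _) (e ⟨_, hm⟩) (e ⟨_, hq⟩) ?_ ?_ ?_
    · rw [← map_pow, map_eq_one_iff _ e.injective] at key
      have h2 : (S true 0 ^ m) ^ 2 = 1 := congrArg (fun z : N => (z.1.1 : Equiv.Perm (List Z2))) key
      rw [← pow_mul] at h2
      have := hpow _ h2
      omega
    · rw [← map_mul, ← map_mul]
      congr 1
      apply Subtype.ext
      apply Subtype.ext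
      exact (((hsc i).inv_right.mul_right (hsc j)).pow_left m).eq
    · rw [← map_pow, map_eq_one_iff _ e.injective]
      apply Subtype.ext
      apply Subtype.ext
      show ((TP (s i))⁻¹ * TP (s j)) ^ 2 = 1
      rw [hinv, TP_mul, pow_two, TP_mul, add_self, TP_zero]
    · rw [Ne, map_eq_one_iff _ e.injective]
      intro h
      have h2 : (TP (s i))⁻¹ * TP (s j) = 1 :=
        congrArg (fun z : N => (z.1.1 : Equiv.Perm (List Z2))) h
      rw [inv_mul_eq_one] at h2
      exact hij (hsinj (TP_inj h2))

end Pool.Agent.Results.MP_7b3742_al.Counter
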